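import Pool.Agent.Y186.MS.Stm

/-!
Project MS (helper186), job MS-INN (helper814): the norm stays at least one half near the centre.
-/

set_option autoImplicit false

open Complex Metric Set Filter Topology
open scoped ComplexConjugate
open Pool.Agent.Results.MP_4c43cc_an.ShiftSet
open Pool.Agent.Y186.MS

namespace Pool.Agent.Y814.MS

theorem pow_sub_le (x y : ℂ) (hx : ‖x‖ ≤ 1) (hy : ‖y‖ ≤ 1) (n : ℕ) :
    ‖x ^ n - y ^ n‖ ≤ n * ‖x - y‖ := by
  induction n with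
  | zero => simp
  | succ n ih =>
    have h1 : x ^ (n + 1) - y ^ (n + 1) = x * (x ^ n - y ^ n) + (x - y) * y ^ n := by ring
    rw [h1]
    refine (norm_add_le _ _).trans ?_
    rw [norm_mul, norm_mul, norm_pow]
    have h2 : ‖x‖ * ‖x ^ n - y ^ n‖ ≤ 1 * (n * ‖x - y‖) :=
      mul_le_mul hx ih (norm_nonneg _) zero_le_one
    have h3 : ‖x - y‖ * ‖y‖ ^ n ≤ ‖x - y‖ * 1 :=
      mul_le_mul_of_nonneg_left (pow_le_one₀ (norm_nonneg _) hy) (norm_nonneg _)
    push_cast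
    linarith

theorem mob_sub (w z : ℂ) (hw : ‖w‖ < 1 / 2) (hz : ‖z‖ = 1) : ‖mob w z - z‖ ≤ 4 * ‖w‖ := by
  have hd := mob_den (w := w) (z := z) (by linarith) hz.le
  have h1 : mob w z - z = (conj w * z ^ 2 - w) / (1 - conj w * z) := by
    rw [eq_div_iff hd]
    unfold mob
    rw [sub_mul, div_mul_cancel₀ _ hd]
    ring
  rw [h1, norm_div, div_le_iff₀ (norm_pos_iff.2 hd)]
  have h2 : ‖conj w * z ^ 2 - w‖ ≤ 2 * ‖w‖ := by
    refine (norm_sub_le _ _).trans ?_
    rw [norm_mul, RCLike.norm_conj, norm_pow, hz]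
    linarith
  have h3 : 1 / 2 ≤ ‖1 - conj w * z‖ := by
    have h4 : ‖(1 : ℂ)‖ - ‖conj w * z‖ ≤ ‖1 - conj w * z‖ := norm_sub_norm_le _ _
    rw [norm_one, norm_mul, RCLike.norm_conj, hz] at h4
    linarith
  have h5 : 0 ≤ ‖w‖ := norm_nonneg w
  nlinarith

theorem fc_sub {F G : ℝ → ℂ} (hF : Continuous F) (hG : Continuous G) (C : ℝ)
    (h : ∀ t, ‖F t - G t‖ ≤ C) (m : ℤ) : ‖fc F m - fc G m‖ ≤ C := by
  have h1 : fc F m - fc G m = (2 * Real.pi : ℂ)⁻¹ *
      ∫ t in (0:ℝ)..2 * Real.pi, (F t - G t) * ee (-m) t := by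
    unfold fc av
    rw [← mul_sub, ← intervalIntegral.integral_sub]
    · congr 1
      congr 1
      ext t
      ring
    · exact (hF.mul (ee_cont _)).intervalIntegrable _ _
    · exact (hG.mul (ee_cont _)).intervalIntegrable _ _
  have hpi := Real.pi_pos
  have h2 := intervalIntegral.norm_integral_le_of_norm_le_const (a := (0 : ℝ))
    (b := 2 * Real.pi) (C := C) (f := fun t => (F t - G t) * ee (-m) t) (by
      intro t _
      rw [norm_mul, ee_norm, mul_one]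
      exact h t)
  rw [h1, norm_mul]
  have h3 : ‖((2 * Real.pi : ℂ))⁻¹‖ = (2 * Real.pi)⁻¹ := by
    rw [norm_inv, norm_mul, Complex.norm_real, Complex.norm_ofNat, Real.norm_of_nonneg hpi.le]
  rw [h3, sub_zero, abs_of_pos (by positivity)] at *
  calc (2 * Real.pi)⁻¹ * ‖∫ t in (0:ℝ)..2 * Real.pi, (F t - G t) * ee (-m) t‖
      ≤ (2 * Real.pi)⁻¹ * (C * (2 * Real.pi)) :=
        mul_le_mul_of_nonneg_left h2 (by positivity)
    _ = C := by field_simp

theorem cf_eq (T : Finset ℕ) (a : ℕ → ℂ) {w : ℂ} (hw : ‖w‖ < 1) (m : ℕ) :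
    cf (pol T a) w m = fc (fun t => pol T a (ph w t)) m := by
  unfold cf
  rw [taylorCoeff_eq (pol_comp_diff T a hw)]
  rfl

theorem cf_zero (T : Finset ℕ) (a : ℕ → ℂ) (m : ℕ) (hm : m ∈ T) : cf (pol T a) 0 m = a m := by
  unfold cf
  have h1 : (fun z => pol T a (mob 0 z)) = pol T a := by
    ext z
    rw [mob_zero]
  rw [h1, coeff_unique (C := fun m => if m ∈ T then a m else 0)]
  · rw [if_pos hm]
  · intro z _
    have h2 : HasSum (fun m => (if m ∈ T then a m else 0) * z ^ m)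
        (∑ b ∈ T, (if b ∈ T then a b else 0) * z ^ b) :=
      hasSum_sum_of_ne_finset_zero (by
        intro b hb
        rw [if_neg hb, zero_mul])
    have h3 : pol T a z = ∑ b ∈ T, (if b ∈ T then a b else 0) * z ^ b := by
      unfold pol
      exact Finset.sum_congr rfl fun b hb => by rw [if_pos hb]
    rw [h3]
    exact h2

/-- job MS-INN -/
theorem t_INN : S_INN := by
  intro T a ha
  obtain ⟨N, hN⟩ : ∃ N : ℕ, N = ∑ n ∈ T, n := ⟨_, rfl⟩
  have hNle : ∀ n ∈ T, n ≤ N := by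
    intro n hn
    rw [hN]
    exact Finset.single_le_sum (f := fun n => n) (fun i _ => Nat.zero_le i) hn
  obtain ⟨K, hK⟩ : ∃ K : ℝ, K = 8 * ((N : ℝ) + 1) * ((T.card : ℝ) + 1) + 2 := ⟨_, rfl⟩
  have hN0 : (0 : ℝ) ≤ N := Nat.cast_nonneg N
  have hT0 : (0 : ℝ) ≤ T.card := Nat.cast_nonneg _
  have hK2 : 2 < K := by
    rw [hK]
    have : 0 < 8 * ((N : ℝ) + 1) * ((T.card : ℝ) + 1) := by positivity
    linarith
  refine ⟨1 / K, by positivity, by rw [div_lt_one (by linarith)]; linarith, fun w hw => ?_⟩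
  have hw2 : ‖w‖ < 1 / 2 := by
    refine hw.trans ?_
    apply one_div_lt_one_div_of_lt (by norm_num) hK2
  have hw1 : ‖w‖ < 1 := by linarith
  have hwK : K * ‖w‖ < 1 := by
    rw [lt_div_iff₀ (by linarith)] at hw
    linarith
  have h0 : ‖(0 : ℂ)‖ < 1 := by simp
  have hcw : Continuous fun t => pol T a (ph w t) := by
    unfold pol
    have := ph_cont hw1
    fun_prop
  have hc0 : Continuous fun t => pol T a (ph 0 t) := by
    unfold pol
    have := ph_cont h0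
    fun_prop
  have hdiff : ∀ t, ‖pol T a (ph w t) - pol T a (ph 0 t)‖ ≤ N * (4 * ‖w‖) := by
    intro t
    unfold pol
    rw [← Finset.sum_sub_distrib]
    refine (norm_sum_le _ _).trans ?_
    have h1 : ∀ n ∈ T, ‖a n * ph w t ^ n - a n * ph 0 t ^ n‖ ≤ ‖a n‖ * (N * (4 * ‖w‖)) := by
      intro n hn
      rw [← mul_sub, norm_mul]
      apply mul_le_mul_of_nonneg_left _ (norm_nonneg _)
      refine (pow_sub_le _ _ (ph_norm hw1 t).le (ph_norm h0 t).le n).trans ?_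
      have h2 : ‖ph w t - ph 0 t‖ ≤ 4 * ‖w‖ := by
        unfold ph
        rw [mob_zero]
        exact mob_sub w (ee 1 t) hw2 (ee_norm _ _)
      exact mul_le_mul (by exact_mod_cast hNle n hn) h2 (norm_nonneg _) hN0
    refine (Finset.sum_le_sum h1).trans ?_
    rw [← Finset.sum_mul, ha, one_mul]
  have hm : ∀ m ∈ T, ‖a m‖ - N * (4 * ‖w‖) ≤ ‖cf (pol T a) w m‖ := by
    intro m hm
    have h1 := fc_sub hcw hc0 _ hdiff m
    rw [← cf_eq T a hw1 m, ← cf_eq T a h0 m, cf_zero T a m hm] at h1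
    have h2 : ‖a m‖ ≤ ‖cf (pol T a) w m‖ + ‖cf (pol T a) w m - a m‖ := by
      calc ‖a m‖ = ‖cf (pol T a) w m - (cf (pol T a) w m - a m)‖ := by congr 1; ring
        _ ≤ _ := norm_sub_le _ _
    linarith
  have hsum := Finset.sum_le_sum hm
  rw [Finset.sum_sub_distrib, ha, Finset.sum_const, nsmul_eq_mul] at hsum
  refine le_trans ?_ hsum
  have h5 : (T.card : ℝ) * (N * (4 * ‖w‖)) ≤ K * ‖w‖ / 2 := by
    rw [hK]
    have h6 : 0 ≤ ‖w‖ := norm_nonneg w
    have h7 : (T.card : ℝ) * N ≤ (T.card + 1) * (N + 1) := by nlinarith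
    have h8 : (T.card : ℝ) * N * ‖w‖ ≤ (T.card + 1) * (N + 1) * ‖w‖ :=
      mul_le_mul_of_nonneg_right h7 h6
    nlinarith
  linarith

end Pool.Agent.Y814.MS
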