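import Pool.Agent.Y186.MS.Stm

/-!
Project MS (helper186), job MS-KEY2 (helper814): the key lemma with a second bound (the proof of lemma key of
the starting file ShiftSet, with one more claim).
-/

set_option autoImplicit false

open Complex Metric Set Filter Topology
open scoped ComplexConjugate
open Pool.Agent.Results.MP_4c43cc_an.ShiftSet
open Pool.Agent.Y186.MS

namespace Pool.Agent.Y814.MS

theorem t_KEY2 : S_KEY2 := by
  intro ε hε hε1 c hc n0
  obtain ⟨R, K, U, hR, hK, hU, hbins⟩ := bins_exist (ε := ε) (δ := (ε ^ 3 / 58) ^ 2) hε hε1 (by positivity)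
  set Q : ℕ := (R + 1) * K with hQ
  obtain ⟨L, hL⟩ := exists_nat_ge ((32 * Q / ε ^ 3) ^ 2 + 1 + n0)
  have hL1 : 1 ≤ L := by
    have : (1:ℝ) ≤ L := le_trans (by nlinarith [sq_nonneg (32 * (Q:ℝ) / ε ^ 3), (by positivity : (0:ℝ) ≤ n0)]) hL
    exact_mod_cast this
  have hLn : n0 ≤ L := by
    have : (n0:ℝ) ≤ L := le_trans (by nlinarith [sq_nonneg (32 * (Q:ℝ) / ε ^ 3)]) hL
    exact_mod_cast this
  have hLQ : (32 * Q / ε ^ 3) ^ 2 ≤ (L:ℝ) := le_trans (by linarith [(by positivity : (0:ℝ) ≤ n0)]) hL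
  have hL' : (1:ℝ) ≤ L := by exact_mod_cast hL1
  have hK' : (1:ℝ) ≤ K := by exact_mod_cast hK
  set V : ℕ → ℂ := fun κ => c * U κ with hV
  have hVn : ∀ κ, ‖V κ‖ = 1 := fun κ => by rw [hV]; simp [hc, hU]
  set G := Finset.Ico (R * K) (R * K + K) with hG
  have hGcard : G.card = K := by rw [hG, Nat.card_Ico]; omega
  set b : ℂ := ((K:ℂ) * L)⁻¹ with hb
  have hbn : ‖b‖ = ((K:ℝ) * L)⁻¹ := by rw [hb]; simp
  set a : ℕ → ℂ := fun n => b * V (n / L) ^ (n % L) with ha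
  set T := Finset.Ico (R * K * L) ((R * K + K) * L) with hT
  have hpol : ∀ z, pol T a z = b * PG V G L z := by
    intro z
    rw [pol, hT, sum_blocks, PG, Finset.mul_sum]
    refine Finset.sum_congr rfl (fun κ _ => ?_)
    rw [Finset.mul_sum]
    refine Finset.sum_congr rfl (fun j hj => ?_)
    have hj' := Finset.mem_range.mp hj
    have e1 : (κ * L + j) / L = κ := by
      rw [mul_comm, Nat.mul_add_div (by omega), Nat.div_eq_of_lt hj', add_zero]
    have e2 : (κ * L + j) % L = j := by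
      rw [mul_comm, Nat.mul_add_mod, Nat.mod_eq_of_lt hj']
    simp only [ha]
    rw [e1, e2, mul_assoc]
  refine ⟨T, a, ?_, ?_, ?_, ?_⟩
  · intro n hn
    have h1 := (Finset.mem_Ico.mp hn).1
    have h2 : L ≤ R * K * L := Nat.le_mul_of_pos_left _ (by positivity)
    omega
  · have h1 : ∀ n ∈ T, ‖a n‖ = ((K:ℝ) * L)⁻¹ := by
      intro n _
      simp only [ha]
      rw [norm_mul, norm_pow, hVn, one_pow, mul_one, hbn]
    rw [Finset.sum_congr rfl h1, Finset.sum_const, hT, Nat.card_Ico, nsmul_eq_mul]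
    have h2 : (R * K + K) * L - R * K * L = K * L := by rw [add_mul]; omega
    rw [h2]; push_cast
    exact mul_inv_cancel₀ (by positivity)
  · intro w hw1 S
    have hr := norm_nonneg w
    have hp : 0 < 1 - ‖w‖ := by linarith
    have hcoef : ∀ m : ℕ, ‖cf (pol T a) w m‖ = ((K:ℝ) * L)⁻¹ * ‖fc (fun t => PG V G L (ph w t)) m‖ := by
      intro m
      unfold cf
      rw [taylorCoeff_eq (pol_comp_diff T a hw1), ← hbn, ← norm_mul, fc, fc, ← av_mul]
      congr 2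
      ext t
      rw [hpol]; simp only [ph]; ring
    simp only [hcoef]
    rw [← Finset.mul_sum]
    have h2 := all_est hw1 hVn G hL1 (Q := Q) (fun κ hκ => by
      have := (Finset.mem_Ico.mp hκ).2
      rw [hQ, add_mul, one_mul]; omega) S
    have h3 : (((G.image (fun κ : ℕ => ⌊(κ:ℝ) * gw w (V κ)⌋₊)).card : ℕ) : ℝ) ≤ K := by
      have := Finset.card_image_le (s := G) (f := fun κ : ℕ => ⌊(κ:ℝ) * gw w (V κ)⌋₊)
      rw [hGcard] at this
      exact_mod_cast this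
    rw [hGcard] at h2
    have h4 : √((((G.image (fun κ : ℕ => ⌊(κ:ℝ) * gw w (V κ)⌋₊)).card : ℕ) : ℝ) * (K:ℝ)) ≤ K := by
      apply Real.sqrt_le_iff.mpr
      refine ⟨by positivity, ?_⟩
      rw [sq]
      gcongr
    have h5 : 32 * Q / ε ^ 3 ≤ √L := Real.le_sqrt_of_sq_le hLQ
    have hsL : 0 ≤ √(L:ℝ) := Real.sqrt_nonneg _
    have h6 : (Q:ℝ) ≤ √L / 32 := by
      rw [div_le_iff₀ (by positivity)] at h5
      have h7 : √(L:ℝ) * ε ^ 3 ≤ √L * 1 :=
        mul_le_mul_of_nonneg_left (pow_le_one₀ hε.le hε1.le) hsL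
      linarith
    have hKL : (0:ℝ) < (K:ℝ) * L := by positivity
    calc ((K:ℝ) * L)⁻¹ * ∑ m ∈ S, ‖fc (fun t => PG V G L (ph w t)) m‖
        ≤ ((K:ℝ) * L)⁻¹ * ((29 * L * √((((G.image (fun κ : ℕ => ⌊(κ:ℝ) * gw w (V κ)⌋₊)).card : ℕ) : ℝ) * (K:ℝ))
            + 16 * √L * (K * Q)) / (1 - ‖w‖) ^ 2) := by gcongr
      _ ≤ ((K:ℝ) * L)⁻¹ * ((29 * L * K
            + 16 * √L * (K * (√L / 32))) / (1 - ‖w‖) ^ 2) := by gcongr
      _ = ((K:ℝ) * L)⁻¹ * ((29 * L * K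
            + 16 * (√L * √L) * (K / 32)) / (1 - ‖w‖) ^ 2) := by ring
      _ = ((K:ℝ) * L)⁻¹ * ((K:ℝ) * L) * ((59 / 2) / (1 - ‖w‖) ^ 2) := by
          rw [Real.mul_self_sqrt (by positivity)]
          ring
      _ ≤ 30 / (1 - ‖w‖) ^ 2 := by
          rw [inv_mul_cancel₀ hKL.ne', one_mul]
          gcongr
          norm_num
  · intro w hw him S
    have hr := norm_nonneg w
    have hw1 : ‖w‖ < 1 := by linarith
    have hp : 0 < 1 - ‖w‖ := by linarith
    have hwc : ‖w * c‖ ≤ 1 - ε := by rw [norm_mul, hc, mul_one]; exact hw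
    have h1 := hbins (w * c) hwc him
    have hcoef : ∀ m : ℕ, ‖cf (pol T a) w m‖ = ((K:ℝ) * L)⁻¹ * ‖fc (fun t => PG V G L (ph w t)) m‖ := by
      intro m
      unfold cf
      rw [taylorCoeff_eq (pol_comp_diff T a hw1), ← hbn, ← norm_mul, fc, fc, ← av_mul]
      congr 2
      ext t
      rw [hpol]; simp only [ph]; ring
    simp only [hcoef]
    rw [← Finset.mul_sum]
    have h2 := all_est hw1 hVn G hL1 (Q := Q) (fun κ hκ => by
      have := (Finset.mem_Ico.mp hκ).2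
      rw [hQ, add_mul, one_mul]; omega) S
    have h3 : (((G.image (fun κ : ℕ => ⌊(κ:ℝ) * gw w (V κ)⌋₊)).card : ℕ) : ℝ) ≤ (ε ^ 3 / 58) ^ 2 * K := by
      have e1 : ∀ κ, gw w (V κ) = gw (w * c) (U κ) := fun κ => gw_rot w c (U κ) hc
      simp only [e1]
      have e2 : Finset.Ico (R * K) ((R + 1) * K) = G := by rw [hG, add_mul, one_mul]
      rw [e2] at h1
      exact h1
    rw [hGcard] at h2
    have h4 : √((((G.image (fun κ : ℕ => ⌊(κ:ℝ) * gw w (V κ)⌋₊)).card : ℕ) : ℝ) * (K:ℝ)) ≤ ε ^ 3 / 58 * K := by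
      apply Real.sqrt_le_iff.mpr
      refine ⟨by positivity, ?_⟩
      calc _ ≤ ((ε ^ 3 / 58) ^ 2 * K) * K := by gcongr
        _ = _ := by ring
    have h5 : 32 * Q / ε ^ 3 ≤ √L := Real.le_sqrt_of_sq_le hLQ
    have h6 : (Q:ℝ) ≤ √L * ε ^ 3 / 32 := by
      rw [div_le_iff₀ (by positivity)] at h5
      linarith
    have hpe : ε ^ 2 ≤ (1 - ‖w‖) ^ 2 := by gcongr; linarith
    calc ((K:ℝ) * L)⁻¹ * ∑ m ∈ S, ‖fc (fun t => PG V G L (ph w t)) m‖
        ≤ ((K:ℝ) * L)⁻¹ * ((29 * L * √((((G.image (fun κ : ℕ => ⌊(κ:ℝ) * gw w (V κ)⌋₊)).card : ℕ) : ℝ) * (K:ℝ))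
            + 16 * √L * (K * Q)) / (1 - ‖w‖) ^ 2) := by gcongr
      _ ≤ ((K:ℝ) * L)⁻¹ * ((29 * L * (ε ^ 3 / 58 * K)
            + 16 * √L * (K * (√L * ε ^ 3 / 32))) / ε ^ 2) := by gcongr
      _ = ((K:ℝ) * L)⁻¹ * ((29 * L * (ε ^ 3 / 58 * K)
            + 16 * (√L * √L) * (K * (ε ^ 3 / 32))) / ε ^ 2) := by ring
      _ = ε := by
          rw [Real.mul_self_sqrt (by positivity)]
          field_simp
          norm_num

end Pool.Agent.Y814.MS
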