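import Pool.Agent.Y186.MS.Stm

/-!
Project MS (helper186), job MS-MEA (helper814): a meagre shift set of full measure.
-/

set_option autoImplicit false

open Complex Metric Set Filter Topology
open scoped ComplexConjugate
open Pool.Agent.Results.MP_4c43cc_an.ShiftSet
open Pool.Agent.Y186.MS

namespace Pool.Agent.Y814.MS

/-- job MS-MEA -/
theorem t_MEA (h : S_MASTER) : S_MEA := by
  have hne : Nonempty (ball (0 : ℂ) 1) := ⟨⟨0, by simp⟩⟩
  obtain ⟨e, he⟩ : ∃ e : ℕ → ball (0 : ℂ) 1, DenseRange e :=
    ⟨TopologicalSpace.denseSeq _, TopologicalSpace.denseRange_denseSeq _⟩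
  obtain ⟨b, hb⟩ : ∃ b : ℕ → ℂ, b = fun j => (e (Nat.unpair j).1 : ℂ) := ⟨_, rfl⟩
  obtain ⟨f, δ, hδ, hδr, hf, h1, h2⟩ := h b (fun j => (1 / 2 : ℝ) ^ j)
    (fun j => by
      rw [hb]
      exact mem_ball_zero_iff.1 (e (Nat.unpair j).1).2) (fun j => by positivity)
  refine ⟨f, hf, ?_, ?_⟩
  · unfold IsMeagre
    have hO : ∀ n : ℕ, ((⋃ j ∈ {j : ℕ | n ≤ j}, (ball (b j) (δ j) ∩ ball (0 : ℂ) 1)) ∪
        (closedBall (0 : ℂ) 1)ᶜ) ∈ residual ℂ := by
      intro n
      apply residual_of_dense_open
      · refine IsOpen.union (isOpen_biUnion fun j _ => isOpen_ball.inter isOpen_ball) ?_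
        exact isClosed_closedBall.isOpen_compl
      · rw [Metric.dense_iff]
        intro x ε hε
        by_cases hx : x ∈ closedBall (0 : ℂ) 1
        · have hx' : x ∈ closure (ball (0 : ℂ) 1) := by
            rw [closure_ball _ one_ne_zero]
            exact hx
          obtain ⟨y, hy, hxy⟩ := Metric.mem_closure_iff.1 hx' ε hε
          have hop : IsOpen {q : ball (0 : ℂ) 1 | (q : ℂ) ∈ ball x ε} :=
            isOpen_ball.preimage continuous_subtype_val
          obtain ⟨k, hk⟩ := he.exists_mem_open hop ⟨⟨y, hy⟩, by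
            show y ∈ ball x ε
            rw [mem_ball, dist_comm]
            exact hxy⟩
          have hbk : b (Nat.pair k n) = e k := by
            rw [hb]
            simp only [Nat.unpair_pair]
          refine ⟨e k, hk, Or.inl ?_⟩
          rw [mem_iUnion₂]
          refine ⟨Nat.pair k n, Nat.right_le_pair k n, ?_, (e k).2⟩
          rw [hbk]
          exact mem_ball_self (hδ _)
        · exact ⟨x, mem_ball_self hε, Or.inr hx⟩
    have hI := countable_iInter_mem.2 hO
    refine mem_of_superset hI ?_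
    intro x hx hxs
    have hxb : x ∈ ball (0 : ℂ) 1 := hxs.1
    refine h2 x hxb ?_ hxs
    rw [Filter.frequently_atTop]
    intro n
    have h3 := mem_iInter.1 hx n
    rcases h3 with h3 | h3
    · rw [mem_iUnion₂] at h3
      obtain ⟨j, hj, hxj⟩ := h3
      exact ⟨j, hj, hxj.1⟩
    · exact absurd (ball_subset_closedBall hxb) h3
  · have hsub : ball (0 : ℂ) 1 \ shiftSet f ⊆
        {w | ∃ᶠ j : ℕ in atTop, w ∈ ball (b j) ((1 / 2 : ℝ) ^ j)} := by
      intro w hw
      by_contra hcon
      apply hw.2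
      apply h1 w hw.1
      rw [mem_setOf_eq, Filter.not_frequently] at hcon
      exact hcon
    refine MeasureTheory.measure_mono_null hsub ?_
    apply MeasureTheory.measure_setOf_frequently_eq_zero
    have hv : ∀ j : ℕ, MeasureTheory.volume {w : ℂ | w ∈ ball (b j) ((1 / 2 : ℝ) ^ j)} =
        ENNReal.ofReal ((1 / 4 : ℝ) ^ j * Real.pi) := by
      intro j
      show MeasureTheory.volume (ball (b j) ((1 / 2 : ℝ) ^ j)) = _
      rw [Complex.volume_ball, ← ENNReal.ofReal_pow (by positivity),
        ENNReal.ofReal_mul (by positivity)]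
      congr 1
      · congr 1
        rw [← pow_mul, mul_comm, pow_mul]
        norm_num
      · rw [ENNReal.ofReal]
        congr 1
        exact (Real.toNNReal_of_nonneg Real.pi_pos.le).symm
    simp_rw [hv]
    have hs : Summable (fun j : ℕ => (1 / 4 : ℝ) ^ j * Real.pi) :=
      (summable_geometric_of_lt_one (by norm_num) (by norm_num)).mul_right _
    exact hs.tsum_ofReal_ne_top

end Pool.Agent.Y814.MS
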